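import Pool.Agent.H175.Growth

/-!
# The growth threshold for sum closed classes with unboundedly many indecomposables

Definitions (file `Pool/Agent/H175/Defs.lean`), following the problem file:

* a permutation of length `n` is an element of `Equiv.Perm (Fin n)`;
* `Contains τ σ`: a subsequence of `τ` is order isomorphic to `σ`;
* `PermClass`: a set of permutations (`mem n` = members of length `n`) closed under containment;
* `dsum α β`: the direct sum; `C.SumClosed`: the class is closed under direct sums;
* `Indec τ`: `τ` is not the direct sum of two nonempty permutations;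
* `C.ind n`: the indecomposable members of length `n`.

The theorem below answers Q1 positively: the lower growth rate (hence the growth rate, which exists
for sum closed classes) is at least the positive root `τ = 2.32472...` of `x ^ 3 - 3 x ^ 2 + 2 x - 1`.
The proof establishes that such a class has at least `n - 1` indecomposables of each length `n`.
-/

namespace Pool.Agent.Results.MP_65ae80_co.GrowthThreshold

open Pool.Agent.H175 Filter Topology

/-- Let `C` be a sum closed class whose numbers of indecomposables are unbounded, and let `τ` be the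
positive root of `x ^ 3 - 3 x ^ 2 + 2 x - 1`.  Then for every `r < τ` we have `r < |C_n| ^ (1 / n)`
for all large `n` (the lower growth rate is at least `τ`); in particular, if `|C_n| ^ (1 / n)`
converges to `L`, then `τ ≤ L`. -/
theorem result (C : PermClass) (hs : C.SumClosed)
    (hunb : ¬ BddAbove (Set.range fun n : ℕ => (C.ind n).ncard))
    (τ : ℝ) (hτ0 : 0 < τ) (hτ : τ ^ 3 - 3 * τ ^ 2 + 2 * τ - 1 = 0) :
    (∀ r : ℝ, r < τ → ∀ᶠ n : ℕ in atTop, r < ((C.mem n).ncard : ℝ) ^ ((1 : ℝ) / n)) ∧
    (∀ L : ℝ, Tendsto (fun n : ℕ => ((C.mem n).ncard : ℝ) ^ ((1 : ℝ) / n)) atTop (𝓝 L) →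
      τ ≤ L) := by
  have hC : ∀ B : ℕ, ∃ n, B < (C.ind n).ncard := by
    intro B
    by_contra hcon
    push Not at hcon
    exact hunb ⟨B, by rintro _ ⟨m, rfl⟩; exact hcon m⟩
  exact ⟨fun r hr => growth_root hs hC hτ0 hτ hr, fun L hL => growth_limit hs hC hτ0 hτ hL⟩

end Pool.Agent.Results.MP_65ae80_co.GrowthThreshold
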